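import Pool.Agent.Helper1.KL.Stmts2

set_option autoImplicit false

namespace Pool.Agent.Helper39.KL

open Module

theorem rank_biSup_le {Q ι : Type} [AddCommGroup Q] [Module ℚ Q] (J : Finset ι)
    (U : ι → Submodule ℚ Q) :
    Module.rank ℚ (⨆ τ ∈ J, U τ : Submodule ℚ Q) ≤ ∑ τ ∈ J, Module.rank ℚ (U τ) := by
  classical
  induction J using Finset.induction_on with
  | empty => simp
  | insert a s ha ih =>
    rw [Finset.sum_insert ha, Finset.iSup_insert]
    exact (Submodule.rank_add_le_rank_add_rank _ _).trans (by gcongr)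

theorem linStep' (E Q ι : Type) [AddCommGroup E] [Module ℚ E] [AddCommGroup Q] [Module ℚ Q]
    (A B T : Submodule ℚ Q) (t : ℕ) (J : Finset ι) (C R : ι → Submodule ℚ E)
    (Ψ : ι → E →ₗ[ℚ] Q) (hT : Module.rank ℚ T ≤ t) (hR : ∀ τ ∈ J, ∀ c ∈ R τ, Ψ τ c ∈ A)
    (hB : B ≤ A ⊔ T ⊔ ⨆ τ ∈ J, (C τ).map (Ψ τ)) :
    Module.rank ℚ B ≤ Module.rank ℚ A + t +
      ∑ τ ∈ J, Module.rank ℚ (C τ ⧸ (R τ).submoduleOf (C τ)) := by
  classical
  -- rank of the image of `B` modulo `A`
  have h1 : Module.rank ℚ B = Module.rank ℚ (B.map A.mkQ) +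
      Module.rank ℚ (LinearMap.ker (A.mkQ.domRestrict B)) := by
    rw [← LinearMap.rank_range_add_rank_ker (A.mkQ.domRestrict B), LinearMap.range_domRestrict]
  have h2 : Module.rank ℚ (LinearMap.ker (A.mkQ.domRestrict B)) ≤ Module.rank ℚ A := by
    have hmem : ∀ x : LinearMap.ker (A.mkQ.domRestrict B), (x.1.1 : Q) ∈ A := by
      intro x
      have := x.2
      rw [LinearMap.mem_ker, LinearMap.domRestrict_apply, Submodule.mkQ_apply,
        Submodule.Quotient.mk_eq_zero] at this
      exact this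
    let g : LinearMap.ker (A.mkQ.domRestrict B) →ₗ[ℚ] A :=
      LinearMap.codRestrict A (B.subtype.comp (LinearMap.ker (A.mkQ.domRestrict B)).subtype) hmem
    have hg : Function.Injective g := by
      intro x y hxy
      have : (x.1.1 : Q) = y.1.1 := congrArg (fun a : A => (a : Q)) hxy
      exact Subtype.ext (Subtype.ext this)
    exact LinearMap.rank_le_of_injective g hg
  have h3 : B.map A.mkQ ≤ T.map A.mkQ ⊔ ⨆ τ ∈ J, (C τ).map (A.mkQ.comp (Ψ τ)) := by
    refine (Submodule.map_mono hB).trans ?_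
    rw [Submodule.map_sup, Submodule.map_sup, Submodule.mkQ_map_self, bot_sup_eq,
      Submodule.map_iSup]
    refine sup_le_sup le_rfl (iSup_mono fun τ => ?_)
    rw [Submodule.map_iSup]
    exact iSup_mono fun hτ => by rw [← Submodule.map_comp]
  have h4 : ∀ τ ∈ J, Module.rank ℚ ((C τ).map (A.mkQ.comp (Ψ τ))) ≤
      Module.rank ℚ (C τ ⧸ (R τ).submoduleOf (C τ)) := by
    intro τ hτ
    have hk : (R τ).submoduleOf (C τ) ≤ LinearMap.ker ((A.mkQ.comp (Ψ τ)).domRestrict (C τ)) := by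
      intro x hx
      have hx' : (x : E) ∈ R τ := hx
      rw [LinearMap.mem_ker, LinearMap.domRestrict_apply, LinearMap.comp_apply,
        Submodule.mkQ_apply, Submodule.Quotient.mk_eq_zero]
      exact hR τ hτ _ hx'
    let g := ((R τ).submoduleOf (C τ)).liftQ ((A.mkQ.comp (Ψ τ)).domRestrict (C τ)) hk
    have hg : LinearMap.range g = (C τ).map (A.mkQ.comp (Ψ τ)) := by
      rw [Submodule.range_liftQ, LinearMap.range_domRestrict]
    rw [← hg]
    exact rank_range_le g
  calc Module.rank ℚ B = Module.rank ℚ (B.map A.mkQ) +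
      Module.rank ℚ (LinearMap.ker (A.mkQ.domRestrict B)) := h1
    _ ≤ (Module.rank ℚ (T.map A.mkQ) + ∑ τ ∈ J, Module.rank ℚ ((C τ).map (A.mkQ.comp (Ψ τ)))) +
        Module.rank ℚ A := by
        gcongr
        refine (Submodule.rank_mono h3).trans ?_
        exact (Submodule.rank_add_le_rank_add_rank _ _).trans
          (by gcongr; exact rank_biSup_le J _)
    _ ≤ (t + ∑ τ ∈ J, Module.rank ℚ (C τ ⧸ (R τ).submoduleOf (C τ))) + Module.rank ℚ A := by
        gcongr with τ hτ
        · exact (rank_map_le _ _).trans hT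
        · exact h4 τ hτ
    _ = _ := by ring


/-- KL-14e. -/
theorem linStep : Pool.Agent.Helper1.KL.LinStep := by
  intro E Q ι _ _ _ _ A B T t J C R Ψ hT hR hB
  exact linStep' E Q ι A B T t J C R Ψ hT hR hB

end Pool.Agent.Helper39.KL
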